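import Pool.Agent.Run7.h549.Sl5

set_option maxHeartbeats 400000

namespace Pool.Agent.Results.MP_847604_al.OpenNormalSubgroups

open Matrix

/-- `G` is an uncountable non-archimedean compact metrizable group. -/
def Admissible (G : Type) [Group G] [TopologicalSpace G] : Prop :=
  NonarchimedeanGroup G ∧ CompactSpace G ∧ TopologicalSpace.MetrizableSpace G ∧ Uncountable G

/-- `G` has a normal subgroup which, as a subset of `G`, has the property `P`, and which is
uncountable and of uncountable index. -/
def HasNormal (G : Type) [Group G] (P : Set G → Prop) : Prop :=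
  ∃ N : Subgroup G, N.Normal ∧ P (N : Set G) ∧ Uncountable N ∧ Uncountable (G ⧸ N)

/-- Q1: every uncountable non-archimedean compact metrizable group has a Borel normal subgroup
which is uncountable and of uncountable index. -/
def Q1 : Prop :=
  ∀ (G : Type) [Group G] [TopologicalSpace G], Admissible G →
    HasNormal G (fun S => @MeasurableSet G (borel G) S)

/-- Q2: the same with analytic in place of Borel. -/
def Q2 : Prop :=
  ∀ (G : Type) [Group G] [TopologicalSpace G], Admissible G →
    HasNormal G (fun S => MeasureTheory.AnalyticSet S)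

theorem admissible (p : ℕ) [Fact p.Prime] : Admissible (SpecialLinearGroup (Fin 2) ℤ_[p]) :=
  ⟨Run7.h549.sl_nonarch p, Run7.h549.sl_compact p, Run7.h549.sl_metrizable p,
    Run7.h549.sl_uncountable p⟩

theorem dichotomy (p : ℕ) [Fact p.Prime] (hp : 5 ≤ p)
    (N : Subgroup (SpecialLinearGroup (Fin 2) ℤ_[p])) (hN : N.Normal) :
    (N : Set (SpecialLinearGroup (Fin 2) ℤ_[p])) ⊆ {1, -1} ∨
      (IsOpen (N : Set (SpecialLinearGroup (Fin 2) ℤ_[p])) ∧
        Finite (SpecialLinearGroup (Fin 2) ℤ_[p] ⧸ N)) := by
  rcases Run7.h549.normal_dichotomy p hp N hN with h | h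
  · exact Or.inl h
  · have := Run7.h549.sl_compact p
    exact Or.inr ⟨h, N.quotient_finite_of_isOpen h⟩

theorem not_hasNormal (p : ℕ) [Fact p.Prime] (hp : 5 ≤ p)
    (P : Set (SpecialLinearGroup (Fin 2) ℤ_[p]) → Prop) :
    ¬ HasNormal (SpecialLinearGroup (Fin 2) ℤ_[p]) P := by
  rintro ⟨N, hN, -, h1, h2⟩
  rcases dichotomy p hp N hN with h | ⟨-, h⟩
  · have hf : (N : Set (SpecialLinearGroup (Fin 2) ℤ_[p])).Finite :=
      Set.Finite.subset (Set.toFinite _) h
    have : Finite N := hf.to_subtype
    exact not_countable (α := N) (Finite.to_countable)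
  · exact not_countable (α := SpecialLinearGroup (Fin 2) ℤ_[p] ⧸ N) (Finite.to_countable)

/-- Both questions have a negative answer: for every prime `p ≥ 5` the group `SL₂(ℤ_p)` is an
uncountable non-archimedean compact metrizable group, and each of its normal subgroups, closed or
not, is contained in `{1, -1}` or is open and of finite index. -/
theorem _root_.Pool.Agent.Results.MP_847604_al.OpenNormalSubgroups.result :
    ¬ Q1 ∧ ¬ Q2 ∧
    ∀ (p : ℕ) [Fact p.Prime], 5 ≤ p →
      Admissible (SpecialLinearGroup (Fin 2) ℤ_[p]) ∧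
      ∀ N : Subgroup (SpecialLinearGroup (Fin 2) ℤ_[p]), N.Normal →
        (N : Set (SpecialLinearGroup (Fin 2) ℤ_[p])) ⊆ {1, -1} ∨
          (IsOpen (N : Set (SpecialLinearGroup (Fin 2) ℤ_[p])) ∧
            Finite (SpecialLinearGroup (Fin 2) ℤ_[p] ⧸ N)) := by
  have h5 : Fact (Nat.Prime 5) := ⟨by norm_num⟩
  refine ⟨?_, ?_, ?_⟩
  · intro h
    exact not_hasNormal 5 le_rfl _ (h _ (admissible 5))
  · intro h
    exact not_hasNormal 5 le_rfl _ (h _ (admissible 5))
  · intro p _ hp
    exact ⟨admissible p, fun N hN => dichotomy p hp N hN⟩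

end Pool.Agent.Results.MP_847604_al.OpenNormalSubgroups
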